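import Pool.Agent.Helper69.EL.Stm
import Pool.Agent.Helper36.EK.BND

set_option autoImplicit false

/-! # EL, part BND: summable bounds of the derivatives of the kick potentials -/

namespace Pool.Agent.Helper69.EL

open Set Filter Topology Pool.Agent.Helper6K9.ES
open Pool.Agent.Helper6K9.EH (Prof Fam eX eY dst pt Tr mkFam Pv Shf S_PROF S_FLOW)
open Pool.Agent.Helper69.EK (MM tau ss ee dd qq hf eta Shp Smk NearId Sh VS Rg S_SHA S_HJ S_INV
  S_AVA S_AVL)
open scoped ContDiff

open Pool.Agent.Helper69.EK.BndL in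
theorem bnd : S_BND := by
  intro κ b u χ cb β psi hu hu1 h
  obtain ⟨bs, b1, b0, cs, c0, xs, x0, pS, pp⟩ := h
  -- compact supports
  have hcβ : HasCompactSupport β := by
    apply HasCompactSupport.intro (isCompact_Icc (a := (-(3 / 2) : ℝ)) (b := 3 / 2))
    intro z hz
    by_contra hne
    exact hz (abs_le.mp (b0 z hne))
  have hcc : HasCompactSupport cb := by
    apply HasCompactSupport.intro (isCompact_Icc (a := (-1 : ℝ)) (b := 1))
    intro z hz
    by_contra hne
    exact hz (abs_le.mp (c0 z hne).le)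
  have hcχ : HasCompactSupport χ := by
    apply HasCompactSupport.intro (isCompact_Icc (a := (1 / 2 - 3 * u / 16 : ℝ)) (b := 1 / 2 + 3 * u / 16))
    intro z hz
    by_contra hne
    have := abs_le.mp (x0 z hne)
    exact hz ⟨by linarith [this.1], by linarith [this.2]⟩
  have hqs : ContDiff ℝ ∞ fun z : ℝ => z ^ 2 / 2 * β z := by
    have : ContDiff ℝ ∞ fun z : ℝ => z ^ 2 / 2 := by fun_prop
    exact this.mul bs
  have hcq : HasCompactSupport fun z : ℝ => z ^ 2 / 2 * β z := hcβ.mul_left
  -- rewriting of the arguments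
  have hη : ∀ j (p : E 1), eta u j (p.1 1) p.2 / ss u j =
      lin 0 (1 / ss u j) (-(u / ss u j)) p + (u * tau j - 1 / 2) / ss u j := by
    intro j p
    have := (ss_pos hu j).ne'
    rw [lin_apply]
    unfold eta
    field_simp
    ring
  have hχ' : ∀ (p : E 1), p.1 1 = lin 0 1 0 p + 0 := by
    intro p
    rw [lin_apply]
    ring
  have hc' : ∀ j (p : E 1), (p.2 - tau j) / dd j = lin 0 0 (1 / dd j) p + (-(tau j / dd j)) := by
    intro j p
    rw [lin_apply]
    ring
  have hp' : ∀ j (p : E 1), p.1 0 - b * p.1 1 - hf j = lin 1 (-b) 0 p + (-hf j) := by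
    intro j p
    rw [lin_apply]
    ring
  have hnη : ∀ j, ‖lin 0 (1 / ss u j) (-(u / ss u j))‖ ≤ 2 / ss u j := by
    intro j
    refine (lin_norm _ _ _).trans ?_
    have hs := ss_pos hu j
    rw [abs_zero, zero_add, abs_neg, abs_of_pos (by positivity), abs_of_pos (by positivity), ← add_div]
    gcongr
    linarith
  have hVK : ∀ n : ℕ, ∃ C D : ℝ, 0 ≤ C ∧ 0 ≤ D ∧ ∀ (ν : ℕ → ℕ) j,
      Nb n (VK ν b u cb β psi j) (aa ν j * C) (D / dd j) := by
    intro n
    obtain ⟨M1, hM1⟩ := bd_compact n bs hcβ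
    obtain ⟨M2, hM2⟩ := bd_compact n cs hcc
    obtain ⟨M3, hM3⟩ := bd_periodic n pS (fun z => by simpa using pp z 1)
    have a1 : 0 ≤ M1 := (norm_nonneg _).trans (hM1.2 0 (Nat.zero_le n) 0)
    have a2 : 0 ≤ M2 := (norm_nonneg _).trans (hM2.2 0 (Nat.zero_le n) 0)
    have a3 : 0 ≤ M3 := (norm_nonneg _).trans (hM3.2 0 (Nat.zero_le n) 0)
    refine ⟨2 ^ n * ((2 ^ n * (M1 * M2)) * M3), 16 / u + |b| + 1, by positivity, by positivity,
      fun ν j => ?_⟩
    have hs := ss_pos hu j
    have hd := dd_pos j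
    have hd1 := dd_le j
    have h16 : 0 < 16 / u := by positivity
    have l1 : 2 / ss u j ≤ (16 / u + |b| + 1) / dd j := by
      have h1 : 2 / ss u j = 128 * MM j ^ 2 / u := by
        have := MM_ge j
        unfold ss
        field_simp
        ring
      have h2 : 2 / ss u j ≤ (16 / u) / dd j := by
        rw [h1]
        have h3 := MM_sq j
        have h4 : 16 / u / dd j = 128 * (64 * 2 ^ (j / 3)) / u := by
          unfold dd
          field_simp
          ring
        rw [h4]
        gcongr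
      refine h2.trans ?_
      gcongr
      linarith [abs_nonneg b]
    have k1 := Nb.comp hM1 ((hnη j).trans l1) ((u * tau j - 1 / 2) / ss u j)
    have k2 : Nb n (fun p => cb (lin 0 0 (1 / dd j) p + (-(tau j / dd j)))) M2
        ((16 / u + |b| + 1) / dd j) := by
      apply Nb.comp hM2
      refine (lin_norm _ _ _).trans ?_
      rw [abs_zero, zero_add, zero_add, abs_of_pos (by positivity)]
      gcongr
      linarith [abs_nonneg b]
    have k3 : Nb n (fun p => psi (lin 1 (-b) 0 p + (-hf j))) M3 ((16 / u + |b| + 1) / dd j) := by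
      apply Nb.comp hM3
      refine (lin_norm _ _ _).trans ?_
      rw [abs_one, abs_neg, abs_zero, add_zero, le_div_iff₀ hd]
      have : (1 + |b|) * dd j ≤ (1 + |b|) * 1 := by gcongr
      linarith
    have k4 := ((k1.mul k2 (by positivity)).mul k3 (by positivity)).const_mul (c := aa ν j)
      (by unfold aa; have := ee_pos j; positivity)
    have e : VK ν b u cb β psi j = fun p => aa ν j *
        (β (lin 0 (1 / ss u j) (-(u / ss u j)) p + (u * tau j - 1 / 2) / ss u j) *
          cb (lin 0 0 (1 / dd j) p + (-(tau j / dd j))) * psi (lin 1 (-b) 0 p + (-hf j))) := by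
      funext p
      simp only [VK]
      rw [hη, hc', hp']
    rw [e]
    exact k4
  choose C D hC0 hD0 hC using hVK
  refine ⟨fun n j => C n * D n ^ n * (ee j * MM j ^ 0), fun n _ => (summ 0).mul_left _, ?_⟩
  intro ν hνκ hν
  have key : ∀ (n : ℕ) (j : ℕ) (p : E 1), n ≤ ν (j / 3) →
      ‖iteratedFDeriv ℝ n (VK ν b u cb β psi j) p‖ ≤ C n * D n ^ n * (ee j * MM j ^ 0) := by
    intro n j p hn
    refine ((hC n ν j).2 p n le_rfl).trans ?_
    have he := ee_pos j
    have hd := dd_pos j
    have hd1 := dd_le j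
    have hCn := hC0 n
    have hDn := hD0 n
    unfold aa
    rw [div_pow]
    have h1 : dd j ^ ν (j / 3) = dd j ^ (ν (j / 3) - n) * dd j ^ n := by
      rw [← pow_add, Nat.sub_add_cancel hn]
    have h2 : dd j ^ (ν (j / 3) - n) ≤ 1 := pow_le_one₀ hd.le hd1
    have h3 : ee j * dd j ^ ν (j / 3) * C n * (D n ^ n / dd j ^ n) =
        ee j * C n * D n ^ n * dd j ^ (ν (j / 3) - n) := by
      rw [h1]
      field_simp
    rw [h3]
    calc ee j * C n * D n ^ n * dd j ^ (ν (j / 3) - n) ≤ ee j * C n * D n ^ n * 1 := by gcongr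
      _ = _ := by ring
  refine ⟨fun j => (hC 0 ν j).1, fun n hn j p => key n j p (hn.trans (hνκ _)), fun n => ?_⟩
  classical
  have hev : ∃ N : ℕ, ∀ j, N ≤ j → n ≤ ν (j / 3) := by
    obtain ⟨N, hN⟩ := eventually_atTop.1 (hν.eventually_ge_atTop n)
    exact ⟨3 * N, fun j hj => hN _ (by omega)⟩
  obtain ⟨N, hN⟩ := hev
  refine ⟨fun j => C n * D n ^ n * (ee j * MM j ^ 0) +
    (if n ≤ ν (j / 3) then 0 else aa ν j * C n * (D n / dd j) ^ n), ?_, fun j p => ?_⟩
  · refine ((summ 0).mul_left _).add (summable_of_finite_support ?_)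
    refine (Finset.range N).finite_toSet.subset ?_
    intro j hj
    by_contra hjN
    apply hj
    have : N ≤ j := by
      simpa using hjN
    simp [hN j this]
  · show ‖iteratedFDeriv ℝ n (VK ν b u cb β psi j) p‖ ≤ C n * D n ^ n * (ee j * MM j ^ 0) +
      (if n ≤ ν (j / 3) then 0 else aa ν j * C n * (D n / dd j) ^ n)
    by_cases hn : n ≤ ν (j / 3)
    · rw [if_pos hn, add_zero]
      exact key n j p hn
    · rw [if_neg hn]
      have h0 : 0 ≤ C n * D n ^ n * (ee j * MM j ^ 0) := by
        have h1 := ee_pos j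
        have h2 := hC0 n
        have h3 := hD0 n
        have h4 := MM_ge j
        positivity
      have h1 := (hC n ν j).2 p n le_rfl
      linarith

end Pool.Agent.Helper69.EL
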