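import Pool.Agent.Helper69.EL.Stm
import Pool.Agent.Helper74.EK.ENV

set_option autoImplicit false

/-! # EL, part ENV: the environment of the tube potentials -/

namespace Pool.Agent.Helper69.EL

open Set Filter Topology Pool.Agent.Helper6K9.ES
open Pool.Agent.Helper6K9.EH (Prof Fam eX eY dst pt Tr mkFam Pv Shf S_PROF S_FLOW)
open Pool.Agent.Helper69.EK (MM tau ss ee dd qq hf eta Shp Smk NearId Sh VS Rg S_SHA S_HJ S_INV
  S_AVA S_AVL)
open Pool.Agent.Helper6K9.EH.EnvL (dX_le dX_sub fd_lip pt_norm fd_per pt_cont)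
open Pool.Agent.Helper69.EK.EnvL (small_of_smk)
open scoped ContDiff

/-- [ENV] -/
theorem env : S_ENV := by
  intro κ st ν b S K j₀ hκ hst hS hSs _hSx hK hsm hvanS hvanK htubeS htubeK
  set δ : ℝ := 1 / (16 * (1 + |b|) ^ 2) with hδ
  have hb := abs_nonneg b
  have hδ1 : δ * (1 + |b|) ^ 2 = 1 / 16 := by rw [hδ]; field_simp
  have hδ0 : 0 < δ := by positivity
  have hδ2 : δ * (1 + |b|) ≤ 1 / 16 := by nlinarith [mul_nonneg hδ0.le hb]
  have hδ3 : δ ≤ 1 / 16 := by nlinarith [mul_nonneg hδ0.le hb]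
  have hK2 : ContDiff ℝ 2 K := hK.1.of_le (WithTop.coe_le_coe.2 le_top)
  have hS2 : ContDiff ℝ 2 S := hS.1.of_le (WithTop.coe_le_coe.2 le_top)
  have hKs := small_of_smk hκ hsm
  have hSs' := small_of_smk hκ hSs
  have h0 : ∀ i p, |dX i K p| ≤ δ := fun i p => (dX_le i p).trans (hKs p).2.1
  have h0' : ∀ i p, |dX i S p| ≤ δ := fun i p => (dX_le i p).trans (hSs' p).2.1
  have h1 : ∀ i x y x' y' t, |dX i K (pt (x + b * y) y t) - dX i K (pt (x' + b * y') y' t)| ≤
      δ * ((1 + |b|) * (|x - x'| + |y - y'|)) := fun i x y x' y' t =>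
    (dX_sub i _ _).trans ((fd_lip hK2 hKs _ _).trans
      (mul_le_mul_of_nonneg_left (pt_norm b x y x' y' t) hδ0.le))
  have h1' : ∀ i x y x' y' t, |dX i S (pt (x + b * y) y t) - dX i S (pt (x' + b * y') y' t)| ≤
      δ * ((1 + |b|) * (|x - x'| + |y - y'|)) := fun i x y x' y' t =>
    (dX_sub i _ _).trans ((fd_lip hS2 hSs' _ _).trans
      (mul_le_mul_of_nonneg_left (pt_norm b x y x' y' t) hδ0.le))
  have hfd : Continuous (fderiv ℝ K) := hK2.continuous_fderiv (by norm_num)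
  have hdc : ∀ i, Continuous (dX i K) := fun i => hfd.clm_apply continuous_const
  have hfd' : Continuous (fderiv ℝ S) := hS2.continuous_fderiv (by norm_num)
  have hdc' : ∀ i, Continuous (dX i S) := fun i => hfd'.clm_apply continuous_const
  refine ⟨hst, ?_, ?_, ?_, ?_, ?_, ?_⟩
  · show Continuous fun p : ℝ × ℝ × ℝ => (dX 0 K (pt (p.1 + b * p.2.1) p.2.1 p.2.2),
      dX 1 S (pt (p.1 + b * p.2.1) p.2.1 p.2.2) +
      (dX 1 K (pt (p.1 + b * p.2.1) p.2.1 p.2.2) + b * dX 0 K (pt (p.1 + b * p.2.1) p.2.1 p.2.2)))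
    exact ((hdc 0).comp (pt_cont b)).prodMk (((hdc' 1).comp (pt_cont b)).add
      (((hdc 1).comp (pt_cont b)).add (continuous_const.mul ((hdc 0).comp (pt_cont b)))))
  · intro x y t
    show |dX 0 K (pt (x + b * y) y t)| ≤ 1 ∧
      |dX 1 S (pt (x + b * y) y t) + (dX 1 K (pt (x + b * y) y t) + b * dX 0 K (pt (x + b * y) y t))| ≤ 1 ∧
      |dX 1 K (pt (x + b * y) y t) + b * dX 0 K (pt (x + b * y) y t)| ≤ 1
    have a1 := h0 1 (pt (x + b * y) y t)
    have a2 := mul_le_mul_of_nonneg_left (h0 0 (pt (x + b * y) y t)) hb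
    have a3 := h0' 1 (pt (x + b * y) y t)
    have a4 : |dX 1 K (pt (x + b * y) y t) + b * dX 0 K (pt (x + b * y) y t)| ≤ 1 / 16 := by
      refine (abs_add_le _ _).trans ?_
      rw [abs_mul]
      nlinarith
    refine ⟨(h0 _ _).trans (by linarith), ?_, by linarith⟩
    refine (abs_add_le _ _).trans ?_
    linarith
  · intro x y x' y' t
    have hx := abs_nonneg (x - x')
    have hy := abs_nonneg (y - y')
    have a0 := h1 0 x y x' y' t
    have a1 := h1 1 x y x' y' t
    have a5 := h1' 1 x y x' y' t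
    show |dX 0 K (pt (x + b * y) y t) - dX 0 K (pt (x' + b * y') y' t)| ≤ _ ∧
      |dX 1 S (pt (x + b * y) y t) + (dX 1 K (pt (x + b * y) y t) + b * dX 0 K (pt (x + b * y) y t)) -
        (dX 1 S (pt (x' + b * y') y' t) + (dX 1 K (pt (x' + b * y') y' t) +
          b * dX 0 K (pt (x' + b * y') y' t)))| ≤ _
    have e1 : δ * ((1 + |b|) * (|x - x'| + |y - y'|)) = δ * (1 + |b|) * (|x - x'| + |y - y'|) := by
      ring
    refine ⟨a0.trans ?_, ?_⟩
    · rw [e1]; nlinarith
    · have e : dX 1 S (pt (x + b * y) y t) + (dX 1 K (pt (x + b * y) y t) +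
          b * dX 0 K (pt (x + b * y) y t)) -
        (dX 1 S (pt (x' + b * y') y' t) + (dX 1 K (pt (x' + b * y') y' t) +
          b * dX 0 K (pt (x' + b * y') y' t))) =
        (dX 1 S (pt (x + b * y) y t) - dX 1 S (pt (x' + b * y') y' t)) +
        ((dX 1 K (pt (x + b * y) y t) - dX 1 K (pt (x' + b * y') y' t)) +
        b * (dX 0 K (pt (x + b * y) y t) - dX 0 K (pt (x' + b * y') y' t))) := by ring
      rw [e]
      refine (abs_add_le _ _).trans ?_
      have a6 := abs_add_le (dX 1 K (pt (x + b * y) y t) - dX 1 K (pt (x' + b * y') y' t))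
        (b * (dX 0 K (pt (x + b * y) y t) - dX 0 K (pt (x' + b * y') y' t)))
      rw [abs_mul] at a6
      have a2 := mul_le_mul_of_nonneg_left a0 hb
      have a3 : δ * ((1 + |b|) * (|x - x'| + |y - y'|)) +
          |b| * (δ * ((1 + |b|) * (|x - x'| + |y - y'|))) = 1 / 16 * (|x - x'| + |y - y'|) := by
        rw [← hδ1]; ring
      have a7 : δ * ((1 + |b|) * (|x - x'| + |y - y'|)) ≤ 1 / 16 * (|x - x'| + |y - y'|) := by
        rw [e1]
        exact mul_le_mul_of_nonneg_right hδ2 (by positivity)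
      linarith
  · intro x y t n
    have e : ∀ i, dX i K (pt (x + b * y) y (t + n)) = dX i K (pt (x + b * y) y t) := by
      intro i
      unfold dX
      have := fd_per hK.2 (pt (x + b * y) y t) n
      have e2 : pt (x + b * y) y (t + n) =
        ((pt (x + b * y) y t).1, (pt (x + b * y) y t).2 + (n : ℝ)) := rfl
      rw [e2, this]
    have e' : ∀ i, dX i S (pt (x + b * y) y (t + n)) = dX i S (pt (x + b * y) y t) := by
      intro i
      unfold dX
      have := fd_per hS.2 (pt (x + b * y) y t) n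
      have e2 : pt (x + b * y) y (t + n) =
        ((pt (x + b * y) y t).1, (pt (x + b * y) y t).2 + (n : ℝ)) := rfl
      rw [e2, this]
    show dX 0 K (pt (x + b * y) y (t + n)) = dX 0 K (pt (x + b * y) y t) ∧
      dX 1 S (pt (x + b * y) y (t + n)) + (dX 1 K (pt (x + b * y) y (t + n)) +
        b * dX 0 K (pt (x + b * y) y (t + n))) = _ ∧
      dX 1 K (pt (x + b * y) y (t + n)) + b * dX 0 K (pt (x + b * y) y (t + n)) = _
    rw [e 0, e 1, e' 1]
    exact ⟨rfl, rfl, rfl⟩
  · intro x y t hy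
    obtain ⟨a0, a1⟩ := hvanK (x + b * y) y t hy
    have a2 := hvanS (x + b * y) y t hy
    show dX 0 K (pt (x + b * y) y t) = 0 ∧
      dX 1 S (pt (x + b * y) y t) + (dX 1 K (pt (x + b * y) y t) + b * dX 0 K (pt (x + b * y) y t)) = 0 ∧
      dX 1 K (pt (x + b * y) y t) + b * dX 0 K (pt (x + b * y) y t) = 0
    rw [a0, a1, a2]
    simp
  · intro j hj x y t hy he
    have b1 := htubeS j hj x y t hy he
    obtain ⟨b2, b3⟩ := htubeK j hj x y t hy he
    show dX 1 S (pt (x + b * y) y t) + (dX 1 K (pt (x + b * y) y t) + b * dX 0 K (pt (x + b * y) y t)) =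
        _ ∧ dX 0 K (pt (x + b * y) y t) = _ ∧
      dX 1 K (pt (x + b * y) y t) + b * dX 0 K (pt (x + b * y) y t) = 0
    refine ⟨?_, b2, b3⟩
    rw [b1, b3, add_zero]
    rfl

end Pool.Agent.Helper69.EL
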