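import Pool.Agent.Helper69.EL.Stm
import Pool.Agent.Helper36.EK.GLU

set_option autoImplicit false

/-! # EL, part GLU: sums of smooth bumps, periodic extension -/

namespace Pool.Agent.Helper69.EL

open Set Filter Topology Pool.Agent.Helper6K9.ES
open Pool.Agent.Helper6K9.EH (Prof Fam eX eY dst pt Tr mkFam Pv Shf S_PROF S_FLOW)
open Pool.Agent.Helper69.EK (MM tau ss ee dd qq hf eta Shp Smk NearId Sh VS Rg S_SHA S_HJ S_INV
  S_AVA S_AVL)
open scoped ContDiff

open Pool.Agent.Helper69.EK.GluL in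
theorem glu : S_GLU := by
  intro κ v₀ ε hε hv₀
  -- the tails
  have htail : ∀ᶠ j₀ : ℕ in atTop, ∀ n ∈ Finset.range (κ + 1), ∑' j, v₀ n (j + j₀) ≤ ε := by
    rw [eventually_all_finset]
    intro n hn
    have h1 := tendsto_sum_nat_add (v₀ n)
    exact (h1.eventually (gt_mem_nhds hε)).mono fun j hj => hj.le
  obtain ⟨j₁, hj₁⟩ := eventually_atTop.mp htail
  refine ⟨j₁, ?_⟩
  intro V A hsm hsupp hbox hclosed hdisj hper hbd₀ hbd j₀ hj₀
  have ht₀ := hj₁ j₀ hj₀
  -- the bounds
  classical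
  let N : ℕ∞ := ⊤
  let v : ℕ → ℕ → ℝ := fun n => if n ≤ κ then v₀ n else (hbd n).choose
  have hv1 : ∀ n : ℕ, (n : ℕ∞) ≤ N → Summable (v n) := by
    intro n _
    by_cases h : n ≤ κ
    · have : v n = v₀ n := if_pos h
      rw [this]
      exact hv₀ n h
    · have : v n = (hbd n).choose := if_neg h
      rw [this]
      exact (hbd n).choose_spec.1
  have hv2 : ∀ n : ℕ, (n : ℕ∞) ≤ N → ∀ j p, ‖iteratedFDeriv ℝ n (V j) p‖ ≤ v n j := by
    intro n _
    by_cases h : n ≤ κ
    · have : v n = v₀ n := if_pos h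
      rw [this]
      exact hbd₀ n h
    · have : v n = (hbd n).choose := if_neg h
      rw [this]
      exact (hbd n).choose_spec.2
  have ht : ∀ n ∈ Finset.range (κ + 1), ∑' j, v n (j + j₀) ≤ ε := by
    intro n hn
    have : v n = v₀ n := if_pos (by have := Finset.mem_range.1 hn; omega)
    rw [this]
    exact ht₀ n hn
  have hκ : (κ : ℕ∞) ≤ N := le_top
  have hN : 1 ≤ N := le_top
  -- the sum
  let W : ℕ → E 1 → ℝ := fun j => V (j + j₀)
  let U : E 1 → ℝ := fun p => ∑' j, W j p
  have hW1 : ∀ i, ContDiff ℝ N (W i) := fun i => hsm _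
  have hW2 : ∀ k : ℕ, (k : ℕ∞) ≤ N → Summable (fun i => v k (i + j₀)) := fun k hk =>
    (summable_nat_add_iff j₀).mpr (hv1 k hk)
  have hW3 : ∀ (k : ℕ) (i : ℕ) (x : E 1), (k : ℕ∞) ≤ N → ‖iteratedFDeriv ℝ k (W i) x‖ ≤
      (fun i => v k (i + j₀)) i := fun k i x hk => hv2 k hk _ x
  have hU : ContDiff ℝ N U := contDiff_tsum (v := fun k i => v k (i + j₀)) hW1 hW2 hW3
  have hUk : ∀ k : ℕ, k ≤ κ → ∀ p, ‖iteratedFDeriv ℝ k U p‖ ≤ ε := by
    intro k hk p
    have hk' : (k : ℕ∞) ≤ N := le_trans (by exact_mod_cast hk) hκ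
    have h1 := iteratedFDeriv_tsum_apply (v := fun k i => v k (i + j₀)) hW1 hW2 hW3 hk' p
    have h2 : iteratedFDeriv ℝ k U p = ∑' n, iteratedFDeriv ℝ k (W n) p := h1
    rw [h2]
    have h3 : ‖∑' n, iteratedFDeriv ℝ k (W n) p‖ ≤ ∑' n, v k (n + j₀) :=
      tsum_of_norm_bounded (hW2 k hk').hasSum (fun i => hW3 k i p hk')
    exact h3.trans (ht k (Finset.mem_range.mpr (by omega)))
  have hN1 : ((1 : ℕ) : ℕ∞) ≤ N := by simpa using hN
  have hdiff : ∀ n, Differentiable ℝ (W n) := fun n =>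
    (hW1 n).differentiable (by
      intro h0
      have : N = 0 := by exact_mod_cast h0
      rw [this] at hN
      simp at hN)
  have hfd : ∀ p, fderiv ℝ U p = ∑' n, fderiv ℝ (W n) p := by
    intro p
    apply fderiv_tsum_apply (u := fun i => v 1 (i + j₀)) (x₀ := p) (hW2 1 hN1) hdiff
    · intro n x
      rw [← norm_iteratedFDeriv_one]
      exact hW3 1 n x hN1
    · apply Summable.of_norm_bounded (hW2 0 (by simp))
      intro i
      rw [← norm_iteratedFDeriv_zero (𝕜 := ℝ)]
      exact hW3 0 i p (by simp)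
  have hBx : Bx U := by
    intro p hp
    have : ∃ j, W j p ≠ 0 := by
      by_contra hcon
      push Not at hcon
      apply hp
      show ∑' j, W j p = 0
      simp [hcon]
    obtain ⟨j, hj⟩ := this
    exact hbox _ _ (hsupp _ _ hj)
  have hVz : ∀ j p, p ∉ A j → fderiv ℝ (V j) p = 0 := by
    intro j p hp
    have h1 : V j =ᶠ[𝓝 p] fun _ => 0 := by
      filter_upwards [(hclosed j).isOpen_compl.mem_nhds hp] with r hr
      by_contra h0
      exact hr (hsupp j r h0)
    rw [h1.fderiv_eq]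
    exact fderiv_const_apply 0
  have hfg : ∀ p, fderiv ℝ (fun q => U (rp q)) p = fderiv ℝ U (rp p) := by
    intro p
    rw [(loc hBx p).fderiv_eq, fderiv_shift]
    rfl
  refine ⟨fun p => U (rp p), ?_, ?_, ?_, ?_, ?_, ?_, ?_⟩
  · rw [contDiff_iff_contDiffAt]
    intro p
    exact ((hU.comp (contDiff_id.sub contDiff_const)).contDiffAt).congr_of_eventuallyEq (loc hBx p)
  · -- periodicity
    intro p k l
    have e1 : ⌊(p.1 + fun i => (k i : ℝ)) 1⌋ = ⌊p.1 1⌋ + k 1 := by
      rw [Pi.add_apply, Int.floor_add_intCast]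
    have e3 : ⌊p.2 + (l : ℝ) + 1 / 2⌋ = ⌊p.2 + 1 / 2⌋ + l := by
      rw [show p.2 + (l : ℝ) + 1 / 2 = p.2 + 1 / 2 + l by ring, Int.floor_add_intCast]
    have e2 : rp (p.1 + (fun i => (k i : ℝ)), p.2 + l) = rp p + (Pi.single 0 ((k 0 : ℤ) : ℝ), 0) := by
      unfold rp
      simp only [e1, e3]
      refine Prod.ext ?_ ?_
      · funext i
        fin_cases i
        · simp [vv]
        · simp [vv]
      · simp [vv]
    show U (rp (p.1 + (fun i => (k i : ℝ)), p.2 + l)) = U (rp p)
    rw [e2]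
    show ∑' j, W j (rp p + (Pi.single 0 ((k 0 : ℤ) : ℝ), 0)) = ∑' j, W j (rp p)
    congr 1
    funext j
    exact hper _ _ _
  · intro n hn p
    have h1 := (loc hBx p).iteratedFDeriv ℝ n
    rw [h1.eq_of_nhds, ifd_shift]
    exact hUk n hn _
  · intro p hp
    have hc1 : Continuous fun q : E 1 => q.1 1 := (continuous_apply 1).comp continuous_fst
    have o : IsOpen {q : E 1 | |q.1 1 - p.1 1| < 1 / 16} :=
      isOpen_lt (hc1.sub continuous_const).abs continuous_const
    have h1 : (fun q => U (rp q)) =ᶠ[𝓝 p] fun _ => 0 := by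
      filter_upwards [o.mem_nhds (by simp : p ∈ {q : E 1 | |q.1 1 - p.1 1| < 1 / 16})] with q hq
      by_contra h0
      obtain ⟨⟨b1, b2⟩, -⟩ := hBx _ h0
      rw [rp, vv_1] at b1 b2
      simp only [abs_lt] at hq
      have hint : ∀ n m : ℤ, (n : ℝ) < m → n + 1 ≤ m := fun n m h => by
        have : n < m := by exact_mod_cast h
        omega
      rcases hp with hp | hp
      · rw [abs_le] at hp
        have h2 : ⌊q.1 1⌋ + 1 ≤ (0 : ℤ) := by
          apply hint
          push_cast
          linarith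
        have h3 : ((⌊q.1 1⌋ : ℤ) : ℝ) + 1 ≤ 0 := by exact_mod_cast h2
        linarith
      · rw [abs_le] at hp
        have h2 : (0 : ℤ) + 1 ≤ ⌊q.1 1⌋ := by
          apply hint
          push_cast
          linarith
        have h3 : (1 : ℝ) ≤ ((⌊q.1 1⌋ : ℤ) : ℝ) := by exact_mod_cast h2
        linarith
    rw [h1.fderiv_eq]
    exact fderiv_const_apply 0
  · intro p hp hno
    rw [hfg, hfd]
    have e1 : ⌊p.1 1⌋ = 0 := by
      rw [abs_le] at hp
      rw [Int.floor_eq_iff]
      constructor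
      · push_cast
        linarith
      · push_cast
        linarith
    have e2 : rp p = (p.1, p.2 + ((-⌊p.2 + 1 / 2⌋ : ℤ) : ℝ)) := by
      unfold rp
      rw [e1]
      refine Prod.ext ?_ ?_
      · funext i
        fin_cases i
        · simp [vv]
        · simp [vv]
      · simp [vv, sub_eq_add_neg]
    have h1 : ∀ n, fderiv ℝ (W n) (rp p) = 0 := by
      intro n
      apply hVz
      rw [e2]
      exact hno _ _ (by omega)
    simp [h1]
  · intro j hj p hp
    obtain ⟨⟨b1, b2⟩, ⟨b3, b4⟩⟩ := hbox _ _ hp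
    have e1 : ⌊p.1 1⌋ = 0 := by
      rw [Int.floor_eq_iff]
      constructor
      · push_cast
        linarith
      · push_cast
        linarith
    have e2 : ⌊p.2 + 1 / 2⌋ = 0 := by
      rw [Int.floor_eq_iff]
      constructor
      · push_cast
        linarith
      · push_cast
        linarith
    have e3 : rp p = p := by
      unfold rp
      rw [e1, e2]
      simp [vv]
    rw [hfg, e3, hfd]
    rw [tsum_eq_single (j - j₀)]
    · show fderiv ℝ (V (j - j₀ + j₀)) p = _
      rw [Nat.sub_add_cancel hj]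
    · intro n hn
      apply hVz
      apply hdisj j (n + j₀) p _ hp
      omega
  · intro hindep x x' y t
    have e : ∀ x : ℝ, rp (pt x y t) = pt x (y - ⌊y⌋) (t - ⌊t + 1 / 2⌋) := by
      intro x
      refine Prod.ext ?_ ?_
      · funext i
        fin_cases i
        · show (rp (pt x y t)).1 0 = x
          unfold rp
          rw [vv_0]
          rfl
        · show (rp (pt x y t)).1 1 = y - ⌊y⌋
          unfold rp
          rw [vv_1]
          rfl
      · show (rp (pt x y t)).2 = t - ⌊t + 1 / 2⌋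
        unfold rp
        rw [vv_t]
        rfl
    show U (rp (pt x y t)) = U (rp (pt x' y t))
    rw [e, e]
    show ∑' j, W j _ = ∑' j, W j _
    congr 1
    funext j
    exact hindep _ _ _ _ _

end Pool.Agent.Helper69.EL
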