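import Pool.Agent.Helper69.EL.Stm
import Pool.Agent.Helper36.EK.POTA

set_option autoImplicit false

/-! # EL, part POTA: the tube potentials -/

namespace Pool.Agent.Helper69.EL

open Set Filter Topology Pool.Agent.Helper6K9.ES
open Pool.Agent.Helper6K9.EH (Prof Fam eX eY dst pt Tr mkFam Pv Shf S_PROF S_FLOW)
open Pool.Agent.Helper69.EK (MM tau ss ee dd qq hf eta Shp Smk NearId Sh VS Rg S_SHA S_HJ S_INV
  S_AVA S_AVL)
open scoped ContDiff

namespace PotaL

open Pool.Agent.Helper69.EK.PotaL (MM_ge ss_pos ss_le ee_pos dd_pos dd_le dX_line)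

variable {b u : ℝ} {χ cb β psi : ℝ → ℝ}

theorem suppK (ν : ℕ → ℕ) (hu : 0 < u) (h : Sh u χ cb β psi) {j : ℕ} {p : E 1}
    (hp : VK ν b u cb β psi j p ≠ 0) : p ∈ Rg u j := by
  have hs := ss_pos hu j
  have h1 : β (eta u j (p.1 1) p.2 / ss u j) ≠ 0 := by
    intro h0
    apply hp
    simp [VK, h0]
  have h4 : cb ((p.2 - tau j) / dd j) ≠ 0 := by
    intro h0
    apply hp
    simp [VK, h0]
  have h2 := h.b0 _ h1
  rw [abs_div, abs_of_pos hs, div_le_iff₀ hs] at h2
  refine ⟨h2, ?_⟩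
  have h5 := h.c0 _ h4
  have hd := dd_pos j
  have hd1 := dd_le j
  rw [abs_div, abs_of_pos hd, div_lt_one hd] at h5
  have h6 : p.1 1 - 1 / 2 = eta u j (p.1 1) p.2 + u * (p.2 - tau j) := by unfold eta; ring
  rw [h6]
  refine (abs_add_le _ _).trans ?_
  rw [abs_mul, abs_of_pos hu]
  have h7 := ss_le hu j
  nlinarith [abs_nonneg (p.2 - tau j)]


theorem nearK (ν : ℕ → ℕ) (hu : 0 < u) (h : Sh u χ cb β psi) {j : ℕ} {p : E 1}
    (hp : |eta u j (p.1 1) p.2| ≤ ss u j) : VK ν b u cb β psi j =ᶠ[𝓝 p] fun q =>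
      aa ν j * (cb ((q.2 - tau j) / dd j) * psi (q.1 0 - b * q.1 1 - hf j)) := by
  have hs := ss_pos hu j
  have hc1 : Continuous fun q : E 1 => q.1 1 := (continuous_apply 1).comp continuous_fst
  have hc2 : Continuous fun q : E 1 => eta u j (q.1 1) q.2 := by
    unfold eta
    exact (hc1.sub continuous_const).sub (continuous_const.mul (continuous_snd.sub continuous_const))
  have o : IsOpen {q : E 1 | |eta u j (q.1 1) q.2| < 5 / 4 * ss u j} :=
    isOpen_lt hc2.abs continuous_const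
  have hm : |eta u j (p.1 1) p.2| < 5 / 4 * ss u j := by linarith
  filter_upwards [o.mem_nhds hm] with q hq
  have hq : |eta u j (q.1 1) q.2| < 5 / 4 * ss u j := hq
  have h1 : β (eta u j (q.1 1) q.2 / ss u j) = 1 := by
    apply h.b1
    rw [abs_div, abs_of_pos hs, div_le_iff₀ hs]
    exact hq.le
  unfold VK
  rw [h1, one_mul]


theorem derivK0 (ν : ℕ → ℕ) (hu : 0 < u) (h : Sh u χ cb β psi) {j : ℕ} {p : E 1}
    (hV : DifferentiableAt ℝ (VK ν b u cb β psi j) p) (hp : |eta u j (p.1 1) p.2| ≤ ss u j) :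
    fderiv ℝ (VK ν b u cb β psi j) p (Pi.single 0 1, 0) = aa ν j * cb ((p.2 - tau j) / dd j) *
      deriv psi (p.1 0 - b * p.1 1 - hf j) := by
  refine dX_line hV (nearK ν hu h hp) 0 ?_
  have hpsi : HasDerivAt psi (deriv psi (p.1 0 - b * p.1 1 - hf j))
      (p.1 0 - b * p.1 1 - hf j) :=
    ((h.pS.differentiable (by norm_num)) _).hasDerivAt
  have d0 : HasDerivAt (fun s : ℝ => p.1 0 + s - b * p.1 1 - hf j) 1 0 := by
    have := (((hasDerivAt_id (0 : ℝ)).const_add (p.1 0)).sub_const (b * p.1 1)).sub_const (hf j)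
    simpa using this
  have d1 : HasDerivAt (fun s : ℝ => psi (p.1 0 + s - b * p.1 1 - hf j))
      (deriv psi (p.1 0 - b * p.1 1 - hf j) * 1) 0 := by
    have hpsi' : HasDerivAt psi (deriv psi (p.1 0 - b * p.1 1 - hf j))
      ((fun s : ℝ => p.1 0 + s - b * p.1 1 - hf j) 0) := by simpa using hpsi
    exact hpsi'.comp (0 : ℝ) d0
  have d2 := (d1.const_mul (cb ((p.2 - tau j) / dd j))).const_mul (aa ν j)
  have e1 : ∀ s : ℝ, (p + s • ((Pi.single 0 1, 0) : E 1)).1 0 = p.1 0 + s := by intro s; simp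
  have e2 : ∀ s : ℝ, (p + s • ((Pi.single 0 1, 0) : E 1)).1 1 = p.1 1 := by intro s; simp
  have e3 : ∀ s : ℝ, (p + s • ((Pi.single 0 1, 0) : E 1)).2 = p.2 := by intro s; simp
  simp only [e1, e2, e3]
  refine d2.congr_deriv ?_
  ring


theorem derivK1 (ν : ℕ → ℕ) (hu : 0 < u) (h : Sh u χ cb β psi) {j : ℕ} {p : E 1}
    (hV : DifferentiableAt ℝ (VK ν b u cb β psi j) p) (hp : |eta u j (p.1 1) p.2| ≤ ss u j) :
    fderiv ℝ (VK ν b u cb β psi j) p (Pi.single 1 1, 0) = -(b * (aa ν j *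
      cb ((p.2 - tau j) / dd j) * deriv psi (p.1 0 - b * p.1 1 - hf j))) := by
  refine dX_line hV (nearK ν hu h hp) 1 ?_
  have hpsi : HasDerivAt psi (deriv psi (p.1 0 - b * p.1 1 - hf j))
      (p.1 0 - b * p.1 1 - hf j) :=
    ((h.pS.differentiable (by norm_num)) _).hasDerivAt
  have dy : HasDerivAt (fun s : ℝ => p.1 1 + s) 1 0 := by
    simpa using (hasDerivAt_id (0 : ℝ)).const_add (p.1 1)
  have d0 : HasDerivAt (fun s : ℝ => p.1 0 - b * (p.1 1 + s) - hf j) (-b) 0 := by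
    have := ((dy.const_mul b).const_sub (p.1 0)).sub_const (hf j)
    simpa using this
  have d1 : HasDerivAt (fun s : ℝ => psi (p.1 0 - b * (p.1 1 + s) - hf j))
      (deriv psi (p.1 0 - b * p.1 1 - hf j) * (-b)) 0 := by
    have hpsi' : HasDerivAt psi (deriv psi (p.1 0 - b * p.1 1 - hf j))
      ((fun s : ℝ => p.1 0 - b * (p.1 1 + s) - hf j) 0) := by simpa using hpsi
    exact hpsi'.comp (0 : ℝ) d0
  have d2 := (d1.const_mul (cb ((p.2 - tau j) / dd j))).const_mul (aa ν j)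
  have e1 : ∀ s : ℝ, (p + s • ((Pi.single 1 1, 0) : E 1)).1 0 = p.1 0 := by intro s; simp
  have e2 : ∀ s : ℝ, (p + s • ((Pi.single 1 1, 0) : E 1)).1 1 = p.1 1 + s := by intro s; simp
  have e3 : ∀ s : ℝ, (p + s • ((Pi.single 1 1, 0) : E 1)).2 = p.2 := by intro s; simp
  simp only [e1, e2, e3]
  refine d2.congr_deriv ?_
  ring


end PotaL

open PotaL in
open Pool.Agent.Helper69.EK.PotaL (MM_ge ss_pos ss_le ee_pos dd_pos dd_le box closed disj nearS
  suppS derivS1) in
theorem pota : S_POTA := by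
  intro hSHA hBND₀ hGLU₀ hBND hGLU κ b u ε hκ hu hu1 hε
  obtain ⟨χ, cb, β, psi, h, hshp⟩ := hSHA u hu hu1
  obtain ⟨c1, -, c3, -⟩ := hBND₀ κ b u χ cb β psi hu hu1 h
  obtain ⟨jS, hjS⟩ := hGLU₀ ⊤ κ (VS u χ β) (Rg u) ε le_top le_top hε c1
    (fun j p hp => suppS hu h hp) (fun j p hp => box hu hu1 hp) (fun j => closed u j)
    (fun i j p => disj hu i j p)
    (fun j p n => by
      have e1 : (p + ((Pi.single 0 (n : ℝ), 0) : E 1)).1 1 = p.1 1 := by simp
      have e3 : (p + ((Pi.single 0 (n : ℝ), 0) : E 1)).2 = p.2 := by simp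
      unfold VS
      rw [e1, e3])
    (fun n _ => c3 n)
  obtain ⟨v, hv, hvν⟩ := hBND κ b u χ cb β psi hu hu1 h
  obtain ⟨jK, hjK⟩ := hGLU κ v ε hε hv
  set j₀ := max (max jS jK) 1 with hj₀
  obtain ⟨S, s1, s2, s3, s4, s5, s6, s7⟩ := hjS j₀ (le_trans (le_max_left _ _) (le_max_left _ _))
  have hχz : ∀ y : ℝ, 3 * u / 16 < |y - 1 / 2| → χ y = 0 ∧ deriv χ y = 0 := by
    intro y hyu
    have hχ : χ =ᶠ[𝓝 y] fun _ => 0 := by
      have o : IsOpen {z : ℝ | 3 * u / 16 < |z - 1 / 2|} :=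
        isOpen_lt continuous_const (continuous_id.sub continuous_const).abs
      filter_upwards [o.mem_nhds hyu] with z hz
      by_contra h0
      exact absurd (h.x0 z h0) (not_le.mpr hz)
    refine ⟨hχ.eq_of_nhds, ?_⟩
    rw [hχ.deriv_eq]
    simp
  have hmemRg : ∀ (j : ℕ) (x y t : ℝ), |y - 1 / 2| ≤ 3 * u / 16 → |eta u j y t| ≤ ss u j →
      pt (x + b * y) y t ∈ Rg u j := by
    intro j x y t hyu het
    refine ⟨?_, hyu⟩
    have := ss_pos hu j
    show |eta u j y t| ≤ _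
    linarith
  have hnoRg : ∀ (x y t : ℝ), 3 * u / 16 < |y - 1 / 2| → ∀ (j : ℕ) (n : ℤ), j₀ ≤ j →
      ((pt (x + b * y) y t).1, (pt (x + b * y) y t).2 + (n : ℝ)) ∉ Rg u j := by
    rintro x y t hyu j n - ⟨-, h2⟩
    exact absurd h2 (not_le.mpr hyu)
  refine ⟨j₀, S, χ, deriv psi, cb, le_max_right _ _, hshp, ⟨s1, s2⟩, s3, ?_, ?_, ?_, ?_⟩
  · apply s7
    intro j x x' y t
    rfl
  · intro x y t hy
    have a1 := s4 (pt x y t) hy
    unfold dX
    rw [a1]
    rfl
  · intro j hj x y t hy het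
    have p1 : (pt (x + b * y) y t).1 1 = y := rfl
    have p2 : (pt (x + b * y) y t).2 = t := rfl
    by_cases hyu : |y - 1 / 2| ≤ 3 * u / 16
    · have a1 := s6 j hj _ (hmemRg j x y t hyu het)
      have het' : |eta u j ((pt (x + b * y) y t).1 1) (pt (x + b * y) y t).2| ≤ ss u j := het
      have b1 := derivS1 hu h (((c1 j).differentiable (by norm_num)) (pt (x + b * y) y t)) het'
      rw [p1, p2] at b1
      unfold dX
      rw [a1, b1]
    · push Not at hyu
      have a1 := s5 (pt (x + b * y) y t) hy (hnoRg x y t hyu)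
      obtain ⟨hχ0, hχ1⟩ := hχz y hyu
      unfold dX
      rw [a1, hχ0, hχ1]
      simp
  · intro ν hνκ hν
    obtain ⟨c2, c4, c5⟩ := hvν ν hνκ hν
    obtain ⟨K, k1, k2, k3, k4, k5, k6, -⟩ := hjK (VK ν b u cb β psi) (Rg u) c2
      (fun j p hp => suppK ν hu h hp) (fun j p hp => box hu hu1 hp) (fun j => closed u j)
      (fun i j p => disj hu i j p)
      (fun j p n => by
        have e1 : (p + ((Pi.single 0 (n : ℝ), 0) : E 1)).1 1 = p.1 1 := by simp
        have e2 : (p + ((Pi.single 0 (n : ℝ), 0) : E 1)).1 0 = p.1 0 + n := by simp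
        have e3 : (p + ((Pi.single 0 (n : ℝ), 0) : E 1)).2 = p.2 := by simp
        unfold VK
        rw [e1, e2, e3, show p.1 0 + (n : ℝ) - b * p.1 1 - hf j = p.1 0 - b * p.1 1 - hf j + n by
          ring, h.pp])
      c4 c5 j₀ (le_trans (le_max_right _ _) (le_max_left _ _))
    refine ⟨K, ⟨k1, k2⟩, k3, ?_, ?_⟩
    · intro x y t hy
      have a2 := k4 (pt x y t) hy
      unfold dX
      rw [a2]
      exact ⟨rfl, rfl⟩
    · intro j hj x y t hy het
      have p0 : (pt (x + b * y) y t).1 0 = x + b * y := rfl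
      have p1 : (pt (x + b * y) y t).1 1 = y := rfl
      have p2 : (pt (x + b * y) y t).2 = t := rfl
      by_cases hyu : |y - 1 / 2| ≤ 3 * u / 16
      · have a2 := k6 j hj _ (hmemRg j x y t hyu het)
        have het' : |eta u j ((pt (x + b * y) y t).1 1) (pt (x + b * y) y t).2| ≤ ss u j := het
        have b2 := derivK0 ν hu h (((c2 j).differentiable (by norm_num)) (pt (x + b * y) y t)) het'
        have b3 := derivK1 ν hu h (((c2 j).differentiable (by norm_num)) (pt (x + b * y) y t)) het'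
        have e : x + b * y - b * y - hf j = x - hf j := by ring
        rw [p0, p1, p2, e] at b2 b3
        unfold dX
        rw [a2, b2, b3]
        exact ⟨rfl, by ring⟩
      · push Not at hyu
        have a2 := k5 (pt (x + b * y) y t) hy (hnoRg x y t hyu)
        have hcb : cb ((t - tau j) / dd j) = 0 := by
          by_contra h0
          have h5 := h.c0 _ h0
          have hd := dd_pos j
          have hd1 := dd_le j
          rw [abs_div, abs_of_pos hd, div_lt_one hd] at h5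
          have h6 : y - 1 / 2 = eta u j y t + u * (t - tau j) := by unfold eta; ring
          rw [h6] at hyu
          have h7 := abs_add_le (eta u j y t) (u * (t - tau j))
          rw [abs_mul, abs_of_pos hu] at h7
          have h8 := ss_le hu j
          nlinarith [abs_nonneg (t - tau j)]
        unfold dX
        rw [a2, hcb]
        simp

end Pool.Agent.Helper69.EL
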